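import Pool.Agent.U798.GP.Spec

/-! Project GQ, package SIEW: a sieve for absolutely summable sequences, any `B` -/

set_option autoImplicit false

open Filter Topology

namespace Pool.Agent.U594.GP

open Pool.Agent.U798.GP

/-- the nonzero multiples of `m` which are not multiples of `m r`, `r < k` prime, `r` prime to `B` -/
def Ind (B k m : ℕ) : Set ℤ :=
  {n | n ≠ 0 ∧ (m : ℤ) ∣ n ∧ ∀ r < k, r.Prime → ¬ r ∣ B → ¬ ((m * r : ℕ) : ℤ) ∣ n}

/-- the nonzero multiples of `m` which are not multiples of `m r`, `r` prime, `r` prime to `B` -/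
def Inf (B m : ℕ) : Set ℤ :=
  {n | n ≠ 0 ∧ (m : ℤ) ∣ n ∧ ∀ r : ℕ, r.Prime → ¬ r ∣ B → ¬ ((m * r : ℕ) : ℤ) ∣ n}

theorem ind_succ_of_not {B k m : ℕ} (h : ¬ (k.Prime ∧ ¬ k ∣ B)) :
    Ind B (k + 1) m = Ind B k m := by
  ext n
  constructor
  · rintro ⟨h1, h2, h3⟩
    exact ⟨h1, h2, fun r hr => h3 r (by omega)⟩
  · rintro ⟨h1, h2, h3⟩
    refine ⟨h1, h2, fun r hr hrp hr1 => ?_⟩
    rcases Nat.lt_succ_iff_lt_or_eq.1 hr with h4 | h4
    · exact h3 r h4 hrp hr1
    · subst h4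
      exact absurd ⟨hrp, hr1⟩ h

theorem ind_succ {B k m : ℕ} (hm : 1 ≤ m) (hk : k.Prime) (hkB : ¬ k ∣ B)
    (c : ℤ → ℂ) (n : ℤ) : (Ind B (k + 1) m).indicator c n =
      (Ind B k m).indicator c n - (Ind B k (m * k)).indicator c n := by
  classical
  have hm0 : (m : ℤ) ≠ 0 := by exact_mod_cast (by omega : m ≠ 0)
  by_cases h1 : n ∈ Ind B k m
  · by_cases h2 : ((m * k : ℕ) : ℤ) ∣ n
    · have h3 : n ∉ Ind B (k + 1) m := fun h => h.2.2 k (Nat.lt_succ_self k) hk hkB h2
      have h4 : n ∈ Ind B k (m * k) := by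
        refine ⟨h1.1, h2, fun r hr hrp hr1 h5 => h1.2.2 r hr hrp hr1 ?_⟩
        refine dvd_trans ?_ h5
        exact_mod_cast (⟨k, by ring⟩ : m * r ∣ m * k * r)
      rw [Set.indicator_of_notMem h3, Set.indicator_of_mem h1, Set.indicator_of_mem h4, sub_self]
    · have h3 : n ∈ Ind B (k + 1) m := by
        refine ⟨h1.1, h1.2.1, fun r hr hrp hr1 => ?_⟩
        rcases Nat.lt_succ_iff_lt_or_eq.1 hr with h4 | h4
        · exact h1.2.2 r h4 hrp hr1
        · subst h4
          exact h2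
      have h4 : n ∉ Ind B k (m * k) := fun h => h2 h.2.1
      rw [Set.indicator_of_mem h3, Set.indicator_of_mem h1, Set.indicator_of_notMem h4, sub_zero]
  · have h3 : n ∉ Ind B (k + 1) m :=
      fun h => h1 ⟨h.1, h.2.1, fun r hr => h.2.2 r (by omega)⟩
    have h4 : n ∉ Ind B k (m * k) := by
      rintro ⟨h5, h6, h7⟩
      apply h1
      refine ⟨h5, dvd_trans (by push_cast; exact Dvd.intro _ rfl) h6,
        fun r hr hrp hr1 h8 => h7 r hr hrp hr1 ?_⟩
      obtain ⟨a, ha⟩ := h6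
      obtain ⟨b, hb⟩ := h8
      have h9 : (k : ℤ) * a = r * b := by
        apply mul_left_cancel₀ hm0
        have h10 := ha.symm.trans hb
        push_cast at h10
        linarith
      have h10 : (r : ℤ) ∣ a := by
        have h11 : IsCoprime (r : ℤ) (k : ℤ) := by
          rw [Nat.isCoprime_iff_coprime]
          exact (Nat.coprime_primes hrp hk).2 (by omega)
        exact h11.dvd_of_dvd_mul_left ⟨b, h9⟩
      obtain ⟨a', ha'⟩ := h10
      refine ⟨a', ?_⟩
      rw [ha, ha']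
      push_cast
      ring
    rw [Set.indicator_of_notMem h3, Set.indicator_of_notMem h1, Set.indicator_of_notMem h4,
      sub_zero]

theorem sum_ind {B : ℕ} {c : ℤ → ℂ} (hc : Summable c)
    (h : ∀ d : ℕ, 1 ≤ d → Nat.Coprime d B →
      ∑' n : ℤ, (if n ≠ 0 ∧ (d : ℤ) ∣ n then c n else 0) = 0) (k : ℕ) :
    ∀ m : ℕ, 1 ≤ m → Nat.Coprime m B → ∑' n : ℤ, (Ind B k m).indicator c n = 0 := by
  classical
  induction k with
  | zero =>
    intro m hm h1
    refine (tsum_congr fun n => ?_).trans (h m hm h1)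
    by_cases h3 : n ≠ 0 ∧ (m : ℤ) ∣ n
    · rw [if_pos h3, Set.indicator_of_mem]
      exact ⟨h3.1, h3.2, fun r hr => absurd hr (Nat.not_lt_zero r)⟩
    · rw [if_neg h3, Set.indicator_of_notMem]
      exact fun h4 => h3 ⟨h4.1, h4.2.1⟩
  | succ k ih =>
    intro m hm h1
    by_cases hk : k.Prime ∧ ¬ k ∣ B
    · obtain ⟨hk, hkB⟩ := hk
      rw [tsum_congr (ind_succ hm hk hkB c), Summable.tsum_sub (hc.indicator _)
        (hc.indicator _), ih m hm h1, ih (m * k) ?_ ?_, sub_zero]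
      · exact Nat.mul_pos hm hk.pos
      · exact Nat.Coprime.mul_left h1 ((Nat.Prime.coprime_iff_not_dvd hk).2 hkB)
    · rw [ind_succ_of_not hk]
      exact ih m hm h1

theorem sum_inf {B : ℕ} {c : ℤ → ℂ} (hc : Summable c)
    (h : ∀ d : ℕ, 1 ≤ d → Nat.Coprime d B →
      ∑' n : ℤ, (if n ≠ 0 ∧ (d : ℤ) ∣ n then c n else 0) = 0)
    (m : ℕ) (hm : 1 ≤ m) (h1 : Nat.Coprime m B) :
    ∑' n : ℤ, (Inf B m).indicator c n = 0 := by
  classical
  have h3 : Tendsto (fun k : ℕ => ∑' n : ℤ, (Ind B k m).indicator c n) atTop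
      (𝓝 (∑' n : ℤ, (Inf B m).indicator c n)) := by
    refine tendsto_tsum_of_dominated_convergence (bound := fun n => ‖c n‖) hc.norm ?_ ?_
    · intro n
      apply tendsto_const_nhds.congr'
      by_cases h4 : n ∈ Inf B m
      · refine Eventually.of_forall fun k => ?_
        dsimp only
        rw [Set.indicator_of_mem h4, Set.indicator_of_mem]
        exact ⟨h4.1, h4.2.1, fun r _ => h4.2.2 r⟩
      · by_cases h5 : n ≠ 0 ∧ (m : ℤ) ∣ n
        · have h6 : ∃ r : ℕ, r.Prime ∧ ¬ r ∣ B ∧ ((m * r : ℕ) : ℤ) ∣ n := by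
            by_contra h7
            push Not at h7
            exact h4 ⟨h5.1, h5.2, h7⟩
          obtain ⟨r, hr1, hr2, hr4⟩ := h6
          filter_upwards [eventually_gt_atTop r] with k hk
          rw [Set.indicator_of_notMem h4, Set.indicator_of_notMem]
          exact fun h8 => h8.2.2 r hk hr1 hr2 hr4
        · refine Eventually.of_forall fun k => ?_
          dsimp only
          rw [Set.indicator_of_notMem h4, Set.indicator_of_notMem]
          exact fun h8 => h5 ⟨h8.1, h8.2.1⟩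
    · refine Eventually.of_forall fun k n => ?_
      exact norm_indicator_le_norm_self _ _
  have h4 : (fun k : ℕ => ∑' n : ℤ, (Ind B k m).indicator c n) = fun _ => 0 :=
    funext fun k => sum_ind hc h k m hm h1
  rw [h4] at h3
  exact tendsto_nhds_unique h3 tendsto_const_nhds

theorem inj_mul {B m : ℕ} (hm : 1 ≤ m) :
    Function.Injective (fun s : Sm B => ((((s : ℕ) : ℤ)) * m)) := by
  rintro ⟨s, hs⟩ ⟨t, ht⟩ h
  dsimp only at h
  have h1 : s * m = t * m := by exact_mod_cast h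
  exact Subtype.ext (Nat.eq_of_mul_eq_mul_right hm h1)

theorem mem_inf {B m : ℕ} (hm : 1 ≤ m) (s : Sm B) : ((((s : ℕ) : ℤ)) * m) ∈ Inf B m := by
  obtain ⟨s, hs1, hs2⟩ := s
  have hm0 : (m : ℤ) ≠ 0 := by exact_mod_cast (by omega : m ≠ 0)
  have hs0 : (s : ℤ) ≠ 0 := by exact_mod_cast (by omega : s ≠ 0)
  refine ⟨mul_ne_zero hs0 hm0, Dvd.intro_left _ rfl, fun r hr hrB h => ?_⟩
  have h1 : m * r ∣ m * s := by
    have h2 : ((m * r : ℕ) : ℤ) ∣ ((m * s : ℕ) : ℤ) := by
      push_cast at h ⊢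
      rw [mul_comm (m : ℤ) (s : ℤ)]
      exact h
    exact_mod_cast h2
  have h2 : r ∣ s := Nat.dvd_of_mul_dvd_mul_left hm h1
  exact hrB (hs2 r hr h2)

theorem exists_of_inf {B m : ℕ} {n : ℤ}
    (hn : n ∈ Inf B m) (h0 : 0 < n) : ∃ s : Sm B, (((s : ℕ) : ℤ)) * m = n := by
  obtain ⟨N, rfl⟩ := Int.eq_ofNat_of_zero_le h0.le
  obtain ⟨h1, h2, h3⟩ := hn
  have h2 : m ∣ N := by exact_mod_cast h2
  obtain ⟨a, rfl⟩ := h2
  have ha : a ≠ 0 := by
    rintro rfl
    rw [mul_zero] at h0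
    exact absurd h0 (by norm_num)
  refine ⟨⟨a, ⟨Nat.one_le_iff_ne_zero.2 ha, fun l hl hla => ?_⟩⟩, ?_⟩
  · by_contra hlB
    exact h3 l hl hlB (by exact_mod_cast Nat.mul_dvd_mul_left m hla)
  · push_cast
    ring

theorem neg_mem_inf {B m : ℕ} {n : ℤ} : -n ∈ Inf B m ↔ n ∈ Inf B m := by
  unfold Inf
  simp only [Set.mem_ofPred_eq, neg_ne_zero, dvd_neg, ne_eq]

theorem t_SIEW : Pool.Agent.U798.GP.S_SIEW := by
  classical
  intro B hB c hc h m hm h1
  have key := sum_inf hc h m hm h1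
  have hinj := inj_mul (B := B) hm
  have hinj' : Function.Injective
      (fun s : Sm B => (-((((s : ℕ) : ℤ)) * m))) := fun x y hxy =>
    hinj (neg_injective hxy)
  -- split into positive and negative
  have hs : ∀ n : ℤ, (Inf B m).indicator c n =
      (Inf B m ∩ {n | 0 < n}).indicator c n + (Inf B m ∩ {n | n < 0}).indicator c n := by
    intro n
    by_cases hn : n ∈ Inf B m
    · rcases lt_trichotomy n 0 with h3 | h3 | h3
      · have h5 : n ∉ Inf B m ∩ {n | 0 < n} := fun h4 => absurd h4.2 (not_lt.2 h3.le)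
        have h6 : n ∈ Inf B m ∩ {n | n < 0} := ⟨hn, h3⟩
        rw [Set.indicator_of_mem hn, Set.indicator_of_notMem h5, Set.indicator_of_mem h6, zero_add]
      · exact absurd h3 hn.1
      · have h5 : n ∉ Inf B m ∩ {n | n < 0} := fun h4 => absurd h4.2 (not_lt.2 h3.le)
        have h6 : n ∈ Inf B m ∩ {n | 0 < n} := ⟨hn, h3⟩
        rw [Set.indicator_of_mem hn, Set.indicator_of_mem h6, Set.indicator_of_notMem h5, add_zero]
    · have h5 : n ∉ Inf B m ∩ {n | 0 < n} := fun h4 => hn h4.1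
      have h6 : n ∉ Inf B m ∩ {n | n < 0} := fun h4 => hn h4.1
      rw [Set.indicator_of_notMem hn, Set.indicator_of_notMem h5,
        Set.indicator_of_notMem h6, add_zero]
  rw [tsum_congr hs, Summable.tsum_add (hc.indicator _) (hc.indicator _)] at key
  have hpos : ∀ s : Sm B, (0 : ℤ) < (((s : ℕ) : ℤ)) * m := by
    intro s
    have hm0 : (0 : ℤ) < m := by exact_mod_cast hm
    have hs0 : (0 : ℤ) < ((s : ℕ) : ℤ) := by
      have := s.2.1
      exact_mod_cast this
    positivity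
  have e1 : ∑' n : ℤ, (Inf B m ∩ {n | 0 < n}).indicator c n =
      ∑' s : Sm B, c ((((s : ℕ) : ℤ)) * m) := by
    rw [← hinj.tsum_eq]
    · refine tsum_congr fun s => ?_
      rw [Set.indicator_of_mem]
      exact ⟨mem_inf hm s, hpos s⟩
    · intro n hn
      have hn2 := Set.mem_of_indicator_ne_zero hn
      exact exists_of_inf hn2.1 hn2.2
  have e2 : ∑' n : ℤ, (Inf B m ∩ {n | n < 0}).indicator c n =
      ∑' s : Sm B, c (-((((s : ℕ) : ℤ)) * m)) := by
    rw [← hinj'.tsum_eq]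
    · refine tsum_congr fun s => ?_
      rw [Set.indicator_of_mem]
      refine ⟨neg_mem_inf.2 (mem_inf hm s), ?_⟩
      have := hpos s
      simp only [Set.mem_ofPred_eq]
      omega
    · intro n hn
      have hn2 := Set.mem_of_indicator_ne_zero hn
      have hn3 : n < 0 := hn2.2
      obtain ⟨s, hs⟩ := exists_of_inf (neg_mem_inf.2 hn2.1) (by omega : 0 < -n)
      refine ⟨s, ?_⟩
      dsimp only
      rw [hs, neg_neg]
  rw [e1, e2] at key
  rw [Summable.tsum_add]
  · exact key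
  · exact hc.comp_injective hinj
  · exact hc.comp_injective hinj'

end Pool.Agent.U594.GP
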